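import Pool.Agent.Helper15.KL.Sched

/-!
# The number of stages of a block
-/

set_option linter.unusedSectionVars false
set_option linter.unusedVariables false

namespace Pool.Agent.Helper15.KL

open Finset

/-- number of stages in the construction of the block of size `2 ^ a` -/
def stp (a : ℕ) : ℕ := if h : 20 ≤ a then stp (a - (Nat.log 2 (a + 4) + 6)) + 1 else 1
termination_by a
decreasing_by omega

lemma stp_lt {a : ℕ} (h : a < 20) : stp a = 1 := by
  rw [stp, dif_neg (by omega)]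

lemma stp_ge {a : ℕ} (h : 20 ≤ a) : stp a = stp (a - (Nat.log 2 (a + 4) + 6)) + 1 := by
  rw [stp, dif_pos h]

lemma stp_pos (a : ℕ) : 1 ≤ stp a := by
  rcases Nat.lt_or_ge a 20 with h | h
  · rw [stp_lt h]
  · rw [stp_ge h]; omega

lemma log_step {a b : ℕ} (h : a ≤ b) : Nat.log 2 (b + 4) ≤ Nat.log 2 (a + 4) + (b - a) := by
  obtain ⟨d, rfl⟩ : ∃ d, b = a + d := ⟨b - a, by omega⟩
  have h1 : a + 4 < 2 ^ (Nat.log 2 (a + 4) + 1) := Nat.lt_pow_succ_log_self (by norm_num) _
  obtain ⟨x, hx⟩ : ∃ x, x = 2 ^ (Nat.log 2 (a + 4) + 1) := ⟨_, rfl⟩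
  have h2 : d + 1 ≤ 2 ^ d := Nat.lt_two_pow_self
  have h3 : a + d + 4 < 2 ^ (Nat.log 2 (a + 4) + 1 + d) := by
    rw [pow_add, ← hx]
    rw [← hx] at h1
    have h4 : x * (d + 1) ≤ x * 2 ^ d := Nat.mul_le_mul_left _ h2
    have h5 : 1 * d ≤ x * d := Nat.mul_le_mul_right _ (by omega)
    have h6 : x * (d + 1) = x * d + x := by ring
    omega
  have h4 := Nat.log_lt_of_lt_pow (b := 2) (x := Nat.log 2 (a + 4) + 1 + d) (by omega) h3
  omega

lemma stp_mono {a b : ℕ} (h : a ≤ b) : stp a ≤ stp b := by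
  induction b using Nat.strong_induction_on generalizing a with
  | _ b ih =>
    rcases Nat.lt_or_ge a 20 with h1 | h1
    · rw [stp_lt h1]; exact stp_pos b
    · have h2 : 20 ≤ b := by omega
      rw [stp_ge h1, stp_ge h2]
      have h3 := log_step h
      have := ih (b - (Nat.log 2 (b + 4) + 6)) (by omega)
        (a := a - (Nat.log 2 (a + 4) + 6)) (by omega)
      omega

lemma stp_le (a : ℕ) : 10 * stp a ≤ a + 10 := by
  induction a using Nat.strong_induction_on with
  | _ a ih =>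
    rcases Nat.lt_or_ge a 20 with h1 | h1
    · rw [stp_lt h1]; omega
    · rw [stp_ge h1]
      have h2 : 4 ≤ Nat.log 2 (a + 4) := Nat.le_log_of_pow_le (by norm_num) (by norm_num; omega)
      have h3 : Nat.log 2 (a + 4) < a := by
        have h4 : a + 4 < 2 ^ a := by
          have : ∀ a, 20 ≤ a → a + 4 < 2 ^ a := by
            intro a ha
            induction a, ha using Nat.le_induction with
            | base => norm_num
            | succ a ha ih => rw [pow_succ]; omega
          exact this a h1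
        exact Nat.log_lt_of_lt_pow (by omega) h4
      rcases Nat.lt_or_ge a (Nat.log 2 (a + 4) + 6) with h5 | h5
      · have h6 : a - (Nat.log 2 (a + 4) + 6) = 0 := by omega
        rw [h6, stp_lt (by norm_num)]
        omega
      · have := ih (a - (Nat.log 2 (a + 4) + 6)) (by omega)
        omega

/-- the number of stages is small compared to `a` -/
lemma stp_small (K : ℕ) : ∃ C : ℕ, ∀ a, K * stp a ≤ a + C := by
  refine ⟨K * (2 ^ K + 10), ?_⟩
  intro a
  have h0 : 1 ≤ 2 ^ K := Nat.one_le_two_pow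
  induction a using Nat.strong_induction_on with
  | _ a ih =>
    rcases Nat.lt_or_ge a 20 with h1 | h1
    · rw [stp_lt h1]
      have : K * 1 ≤ K * (2 ^ K + 10) := Nat.mul_le_mul_left _ (by omega)
      omega
    · rcases Nat.lt_or_ge (a + 4) (2 ^ K) with h2 | h2
      · have h3 := stp_le a
        have h4 : K * stp a ≤ K * (2 ^ K + 10) := Nat.mul_le_mul_left _ (by omega)
        omega
      · have h3 : K ≤ Nat.log 2 (a + 4) := Nat.le_log_of_pow_le (by norm_num) h2
        rw [stp_ge h1]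
        rcases Nat.lt_or_ge a (Nat.log 2 (a + 4) + 6) with h5 | h5
        · have h6 : a - (Nat.log 2 (a + 4) + 6) = 0 := by omega
          rw [h6, stp_lt (by norm_num)]
          have : K * (1 + 1) ≤ K * (2 ^ K + 10) := Nat.mul_le_mul_left _ (by omega)
          omega
        · have := ih (a - (Nat.log 2 (a + 4) + 6)) (by omega)
          have e : K * (stp (a - (Nat.log 2 (a + 4) + 6)) + 1) =
            K * stp (a - (Nat.log 2 (a + 4) + 6)) + K := by ring
          omega

/-- number of lines, and margin, of a block of size `2 ^ a` -/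
def Tg (A a : ℕ) : ℕ := 8 * A * 2 ^ a * (a + 4) ^ 2 * stp a

lemma sum_Tg {a ν A : ℕ} (h : ν + 1 ≤ a) :
    ∑ i ∈ range (num ν), Tg A (ex a ν i) ≤ 8 * A * (a + 4) ^ 2 * stp a * 2 ^ (a + ν + 6) := by
  rw [← sum_ex h, mul_sum]
  apply sum_le_sum
  intro i _
  unfold Tg
  have h1 : (ex a ν i + 4) ^ 2 * stp (ex a ν i) ≤ (a + 4) ^ 2 * stp a :=
    Nat.mul_le_mul (Nat.pow_le_pow_left (by have := ex_le a ν i; omega) 2)
      (stp_mono (ex_le a ν i))
  calc 8 * A * 2 ^ ex a ν i * (ex a ν i + 4) ^ 2 * stp (ex a ν i) =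
        8 * A * 2 ^ ex a ν i * ((ex a ν i + 4) ^ 2 * stp (ex a ν i)) := by ring
    _ ≤ 8 * A * 2 ^ ex a ν i * ((a + 4) ^ 2 * stp a) := Nat.mul_le_mul_left _ h1
    _ = _ := by ring

/-- the resolution of the later blocks covers the precision needed for the present one -/
lemma tail' {A a ν L l : ℕ} (hν4 : 1 ≤ ν) (hν : L < 2 ^ (ν + 1)) (hL : L = a + ν + 10)
    (ha : ν + 1 ≤ a) (hl : l < num ν) :
    ∑ i ∈ range l, Rf A (ex a ν i) + (Tg A (ex a ν l) + 3 * Rf A (ex a ν l)) ≤
      ∑ i ∈ range (num ν), Rf A (ex a ν i) + A * 2 ^ (a - (ν + 1)) * L ^ 3 := by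
  set N := 2 ^ (ν + 5) with hN
  have hN0 : 0 < N := by positivity
  have hN16 : N = 16 * 2 ^ (ν + 1) := by rw [hN, show ν + 5 = (ν + 1) + 4 by ring, pow_add]; ring
  obtain ⟨q, hq⟩ : ∃ q, q = l / N := ⟨_, rfl⟩
  by_cases hqν : q < ν + 1
  · have h1 : l < N * (q + 1) := by rw [hq]; exact Nat.lt_mul_div_succ l hN0
    have h2 : ∑ i ∈ range l, Rf A (ex a ν i) ≤ ∑ i ∈ range (N * (q + 1)), Rf A (ex a ν i) :=
      sum_le_sum_of_subset (range_mono h1.le)
    have h3 : ∑ i ∈ range (N * (q + 1) + N), Rf A (ex a ν i) =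
        ∑ i ∈ range (N * (q + 1)), Rf A (ex a ν i) + N * Rf A (a - (q + 1)) := by
      rw [sum_range_add]
      congr 1
      have : ∀ j ∈ range N, Rf A (ex a ν (N * (q + 1) + j)) = Rf A (a - (q + 1)) := by
        intro j hj
        rw [mem_range] at hj
        congr 1
        unfold ex
        rw [← hN, Nat.mul_add_div hN0, Nat.div_eq_of_lt hj, add_zero, min_eq_left (by omega)]
      rw [sum_congr rfl this]
      simp
    have h4 : ∑ i ∈ range (N * (q + 1) + N), Rf A (ex a ν i) ≤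
        ∑ i ∈ range (num ν), Rf A (ex a ν i) := by
      apply sum_le_sum_of_subset
      apply range_mono
      unfold num
      rw [← hN]
      calc N * (q + 1) + N = N * (q + 2) := by ring
        _ ≤ N * (ν + 3) := Nat.mul_le_mul_left _ (by omega)
    have h5 : ex a ν l = a - q := by
      unfold ex
      rw [← hN, ← hq, min_eq_left (by omega)]
    obtain ⟨x, hx⟩ : ∃ x, x = a - (q + 1) := ⟨_, rfl⟩
    have hx1 : a - q = x + 1 := by omega
    have h6 : Tg A (ex a ν l) + 3 * Rf A (ex a ν l) ≤ N * Rf A (a - (q + 1)) := by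
      rw [h5, ← hx, hx1]
      unfold Tg Rf
      have h7 : 16 * (x + 12) ≤ N := by omega
      have h8 := stp_le (x + 1)
      have h9 : 8 * stp (x + 1) + 3 ≤ x + 12 := by omega
      have h10 : (x + 5) ^ 2 * 2 ≤ 16 * (x + 4) ^ 2 := by
        have : 16 * (x + 4) ^ 2 = (x + 5) ^ 2 * 2 + (14 * x ^ 2 + 108 * x + 206) := by ring
        omega
      calc 8 * A * 2 ^ (x + 1) * (x + 1 + 4) ^ 2 * stp (x + 1) +
            3 * (A * 2 ^ (x + 1) * (x + 1 + 4) ^ 2)
          = A * 2 ^ x * (((x + 5) ^ 2 * 2) * (8 * stp (x + 1) + 3)) := by ring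
        _ ≤ A * 2 ^ x * ((16 * (x + 4) ^ 2) * (x + 12)) := by
            apply Nat.mul_le_mul_left
            exact Nat.mul_le_mul h10 h9
        _ = A * 2 ^ x * ((16 * (x + 12)) * (x + 4) ^ 2) := by ring
        _ ≤ A * 2 ^ x * (N * (x + 4) ^ 2) := by
            apply Nat.mul_le_mul_left
            exact Nat.mul_le_mul_right _ h7
        _ = N * (A * 2 ^ x * (x + 4) ^ 2) := by ring
    omega
  · have h1 : ex a ν l = a - (ν + 1) := by
      unfold ex
      rw [← hN, ← hq, min_eq_right (by omega)]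
    have h2 : ∑ i ∈ range l, Rf A (ex a ν i) ≤ ∑ i ∈ range (num ν), Rf A (ex a ν i) :=
      sum_le_sum_of_subset (range_mono hl.le)
    obtain ⟨y, hy⟩ : ∃ y, y = a - (ν + 1) := ⟨_, rfl⟩
    have h3 : Tg A (ex a ν l) + 3 * Rf A (ex a ν l) ≤ A * 2 ^ (a - (ν + 1)) * L ^ 3 := by
      rw [h1, ← hy]
      unfold Tg Rf
      have h8 := stp_le y
      have h9 : 8 * stp y + 3 ≤ L := by omega
      calc 8 * A * 2 ^ y * (y + 4) ^ 2 * stp y + 3 * (A * 2 ^ y * (y + 4) ^ 2)
          = A * 2 ^ y * ((y + 4) ^ 2 * (8 * stp y + 3)) := by ring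
        _ ≤ A * 2 ^ y * (L ^ 2 * L) := by
            apply Nat.mul_le_mul_left
            exact Nat.mul_le_mul (Nat.pow_le_pow_left (by omega) 2) h9
        _ = _ := by ring
    omega

section

variable {A B a ν : ℕ}

lemma stp_next (h1 : 2 ^ ν ≤ a + ν + 10) (h2 : a + ν + 10 < 2 ^ (ν + 1))
    (h20 : 20 ≤ a + ν + 6) : stp (a + ν + 6) = stp a + 1 := by
  have e0 : a + ν + 6 + 4 = a + ν + 10 := by ring
  have h3 : Nat.log 2 (a + ν + 6 + 4) = ν := by
    rw [e0]
    exact (Nat.log_eq_iff (Or.inr ⟨by norm_num, by omega⟩)).mpr ⟨h1, h2⟩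
  rw [stp_ge h20, h3]
  congr 2
  omega

end

end Pool.Agent.Helper15.KL
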