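import Pool.Agent.Helper15.KL.Ineq
import Pool.Agent.Helper15.KM.Stp

/-!
# The inequalities of one step, with the number of stages
-/

set_option linter.unusedSectionVars false
set_option linter.unusedVariables false

namespace Pool.Agent.Helper15.KL

open Finset

section

variable {A B a ν : ℕ} (h1 : 2 ^ ν ≤ a + ν + 10) (h2 : a + ν + 10 < 2 ^ (ν + 1))
  (ha : ν + 1 ≤ a) (hν : 4 ≤ ν) (h20 : 20 ≤ a + ν + 6) (hB : 6 ≤ B) (hA : 1 + 161 * B ≤ A)

include h1 h2 ha hν h20 hB hA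

lemma ineq_rho' : ∀ l < num ν, 1 + ST (fun i => Rf A (ex a ν i)) (fun i => Bf B (ex a ν i)) l +
    (74 + Tg A (ex a ν l) + 3 * Rf A (ex a ν l) + 4 * SB (fun i => Bf B (ex a ν i)) l +
      Bf B (ex a ν l)) ≤ rho A B a ν := by
  intro l hl
  have t1 := tail' (A := A) (by omega) h2 rfl ha hl
  have t2 := SB_le (B := B) ha hB hl.le
  have t3 : Bf B (ex a ν l) ≤ B * 2 ^ (a + ν + 6) := Bf_le
  have t4 : ST (fun i => Rf A (ex a ν i)) (fun i => Bf B (ex a ν i)) l ≤
      33 * num ν + ∑ i ∈ range l, Rf A (ex a ν i) + 2 * (num ν * (B * 2 ^ (a + ν + 6))) := by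
    unfold ST
    rw [sum_add_distrib, sum_add_distrib]
    have e1 : ∑ i ∈ range l, 33 = 33 * l := by simp [mul_comm]
    have e2 : ∑ i ∈ range l, 2 * SB (fun i => Bf B (ex a ν i)) i ≤
        2 * (l * (B * 2 ^ (a + ν + 6))) := by
      rw [← mul_sum]
      apply Nat.mul_le_mul_left
      calc ∑ i ∈ range l, SB (fun i => Bf B (ex a ν i)) i
          ≤ ∑ i ∈ range l, B * 2 ^ (a + ν + 6) := by
            apply sum_le_sum
            intro i hi
            rw [mem_range] at hi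
            exact SB_le ha hB (by omega)
        _ = l * (B * 2 ^ (a + ν + 6)) := by simp
    have e3 : l * (B * 2 ^ (a + ν + 6)) ≤ num ν * (B * 2 ^ (a + ν + 6)) :=
      Nat.mul_le_mul_right _ hl.le
    omega
  unfold rho
  omega

lemma cube' : 8 * A * (a + 4) ^ 2 * stp a * 2 ^ (a + ν + 6) +
    8 * (A * (2 ^ (a + ν + 6) * (a + ν + 10) ^ 2)) ≤ Tg A (a + ν + 6) := by
  unfold Tg
  have e0 : a + ν + 6 + 4 = a + ν + 10 := by ring
  rw [e0, stp_next h1 h2 h20]
  obtain ⟨X, hX⟩ : ∃ X, X = 2 ^ (a + ν + 6) := ⟨_, rfl⟩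
  rw [← hX]
  have e1 : 8 * A * (a + 4) ^ 2 * stp a * X ≤ 8 * A * (a + ν + 10) ^ 2 * stp a * X := by
    apply Nat.mul_le_mul_right
    apply Nat.mul_le_mul_right
    apply Nat.mul_le_mul_left
    exact Nat.pow_le_pow_left (by omega) 2
  have : 8 * A * X * (a + ν + 10) ^ 2 * (stp a + 1) = 8 * A * (a + ν + 10) ^ 2 * stp a * X +
    8 * (A * (X * (a + ν + 10) ^ 2)) := by ring
  omega

lemma ineq_S' : A * (2 ^ (a + ν + 6) * ((a + ν + 10) * (ν + 3))) ≤
    A * (2 ^ (a + ν + 6) * (a + ν + 10) ^ 2) := by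
  apply Nat.mul_le_mul_left
  apply Nat.mul_le_mul_left
  rw [pow_two]
  exact Nat.mul_le_mul_left _ (by omega)

lemma ineq_Q' : 8 + rho A B a ν + 4 * num ν + SQ (fun i => Rf A (ex a ν i))
    (fun i => Tg A (ex a ν i)) (fun i => Bf B (ex a ν i)) (num ν) ≤ Tg A (a + ν + 6) := by
  have r1 := rest h1 h2 ha hν h20 hB hA
  have r2 := ineq_R h1 h2 ha hν h20 hB hA
  have t1 := sum_Rf (A := A) ha
  have t2 := sum_Tg (A := A) ha
  have t3 := sum_Bf (B := B) ha hB
  have c1 := cube' h1 h2 ha hν h20 hB hA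
  have s1 := ineq_S' h1 h2 ha hν h20 hB hA
  have q1 : SQ (fun i => Rf A (ex a ν i)) (fun i => Tg A (ex a ν i)) (fun i => Bf B (ex a ν i))
      (num ν) ≤ 99 * num ν + 5 * ∑ i ∈ range (num ν), Rf A (ex a ν i) +
      ∑ i ∈ range (num ν), Tg A (ex a ν i) + 5 * (num ν * (B * 2 ^ (a + ν + 6))) +
      ∑ i ∈ range (num ν), Bf B (ex a ν i) := by
    simp only [SQ, sum_add_distrib]
    have e1 : ∑ i ∈ range (num ν), 99 = 99 * num ν := by simp [mul_comm]
    have e2 : ∑ i ∈ range (num ν), 5 * SB (fun i => Bf B (ex a ν i)) i ≤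
        5 * (num ν * (B * 2 ^ (a + ν + 6))) := by
      rw [← mul_sum]
      apply Nat.mul_le_mul_left
      calc ∑ i ∈ range (num ν), SB (fun i => Bf B (ex a ν i)) i
          ≤ ∑ i ∈ range (num ν), B * 2 ^ (a + ν + 6) := by
            apply sum_le_sum
            intro i hi
            rw [mem_range] at hi
            exact SB_le ha hB hi.le
        _ = num ν * (B * 2 ^ (a + ν + 6)) := by simp
    have e3 : ∑ i ∈ range (num ν), 2 * pr (fun i => Rf A (ex a ν i)) i ≤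
        2 * ∑ i ∈ range (num ν), Rf A (ex a ν i) := by
      rw [← mul_sum]
      apply Nat.mul_le_mul_left
      obtain ⟨m, hm⟩ : ∃ m, num ν = m + 1 :=
        ⟨num ν - 1, by have := two_le_num h1 h2 ha hν h20 hB hA; omega⟩
      rw [hm, sum_range_succ', sum_range_succ]
      simp only [pr]
      omega
    have e4 : ∑ i ∈ range (num ν), 3 * Rf A (ex a ν i) =
        3 * ∑ i ∈ range (num ν), Rf A (ex a ν i) := by rw [mul_sum]
    omega
  obtain ⟨X, hX⟩ : ∃ X, X = 2 ^ (a + ν + 6) := ⟨_, rfl⟩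
  have k1 : A * (a + 4) ^ 2 * 2 ^ (a + ν + 6) ≤ A * (2 ^ (a + ν + 6) * (a + ν + 10) ^ 2) := by
    calc A * (a + 4) ^ 2 * 2 ^ (a + ν + 6) = A * (2 ^ (a + ν + 6) * (a + 4) ^ 2) := by ring
      _ ≤ _ := by
        apply Nat.mul_le_mul_left
        apply Nat.mul_le_mul_left
        exact Nat.pow_le_pow_left (by omega) 2
  have k2 : Rf A (a + ν + 6) = A * (2 ^ (a + ν + 6) * (a + ν + 10) ^ 2) := by
    unfold Rf
    have e0 : a + ν + 6 + 4 = a + ν + 10 := by ring
    rw [e0]; ring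
  omega

lemma ineq_N' : 1 + SN (fun i => Tg A (ex a ν i)) (fun i => Rf A (ex a ν i))
    (fun i => Bf B (ex a ν i)) (num ν) ≤ Tg A (a + ν + 6) := by
  have r1 := rest h1 h2 ha hν h20 hB hA
  have t1 := sum_Rf (A := A) ha
  have t2 := sum_Tg (A := A) ha
  have c1 := cube' h1 h2 ha hν h20 hB hA
  have s1 := ineq_S' h1 h2 ha hν h20 hB hA
  have q1 : SN (fun i => Tg A (ex a ν i)) (fun i => Rf A (ex a ν i))
      (fun i => Bf B (ex a ν i)) (num ν) ≤ 18 * num ν + ∑ i ∈ range (num ν), Tg A (ex a ν i) +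
      ∑ i ∈ range (num ν), Rf A (ex a ν i) + 2 * (num ν * (B * 2 ^ (a + ν + 6))) := by
    simp only [SN, sum_add_distrib]
    have e1 : ∑ i ∈ range (num ν), 18 = 18 * num ν := by simp [mul_comm]
    have e2 : ∑ i ∈ range (num ν), 2 * SB (fun i => Bf B (ex a ν i)) i ≤
        2 * (num ν * (B * 2 ^ (a + ν + 6))) := by
      rw [← mul_sum]
      apply Nat.mul_le_mul_left
      calc ∑ i ∈ range (num ν), SB (fun i => Bf B (ex a ν i)) i
          ≤ ∑ i ∈ range (num ν), B * 2 ^ (a + ν + 6) := by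
            apply sum_le_sum
            intro i hi
            rw [mem_range] at hi
            exact SB_le ha hB hi.le
        _ = num ν * (B * 2 ^ (a + ν + 6)) := by simp
    omega
  have k1 : A * (a + 4) ^ 2 * 2 ^ (a + ν + 6) ≤ A * (2 ^ (a + ν + 6) * (a + ν + 10) ^ 2) := by
    calc A * (a + 4) ^ 2 * 2 ^ (a + ν + 6) = A * (2 ^ (a + ν + 6) * (a + 4) ^ 2) := by ring
      _ ≤ _ := by
        apply Nat.mul_le_mul_left
        apply Nat.mul_le_mul_left
        exact Nat.pow_le_pow_left (by omega) 2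
  omega

end

end Pool.Agent.Helper15.KL
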