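import Pool.Agent.Helper15.KL.Ind
import Pool.Agent.Helper15.KM.Ineq

/-!
# The family of inner blocks, with the number of stages
-/

set_option linter.unusedSectionVars false
set_option linter.unusedVariables false

namespace Pool.Agent.Helper15.KL

open Finset Filter Topology Pool.Agent.N35.HL

/-- the block of size `2 ^ a` -/
def Fam' (A B : ℕ) (c : ℝ) (a : ℕ) : Prop :=
  Lv (Tg A a) (Rf A a) (Tg A a) (Bf B a) (Real.exp (c * 2 ^ a * (1 + 1 / ((a:ℝ) + 4))))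

attribute [local irreducible] rho num ex SB SN ST SQ in
set_option maxHeartbeats 1000000 in
theorem fam_step2 {A B : ℕ} {c : ℝ} {a' : ℕ} (h20 : 20 ≤ a') (hB : 6 ≤ B)
    (hA : 1 + 161 * B ≤ A) (hc : 1 ≤ c) (hAc : (A:ℝ) ≤ Real.exp (1000 * c))
    (ih : ∀ a < a', Fam' A B c a) : Fam' A B c a' := by
  obtain ⟨ν, hν⟩ : ∃ ν, ν = Nat.log 2 (a' + 4) := ⟨_, rfl⟩
  have g1 : 2 ^ ν ≤ a' + 4 := by rw [hν]; exact Nat.pow_log_le_self 2 (by omega)
  have g2 : a' + 4 < 2 ^ (ν + 1) := by rw [hν]; exact Nat.lt_pow_succ_log_self (by norm_num) _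
  have g3 : 4 ≤ ν := by
    rw [hν]
    exact Nat.le_log_of_pow_le (by norm_num) (by norm_num; omega)
  have g4 : 2 * ν + 7 ≤ a' := by
    rcases Nat.lt_or_ge ν 5 with h | h
    · omega
    · have := log_room ν h
      omega
  obtain ⟨a, rfl⟩ : ∃ a, a' = a + ν + 6 := ⟨a' - ν - 6, by omega⟩
  have e0 : a + ν + 6 + 4 = a + ν + 10 := by ring
  rw [e0] at g1 g2
  have ha : ν + 1 ≤ a := by omega
  have step := stepR (t := fun i => Tg A (ex a ν i)) (r := fun i => Rf A (ex a ν i))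
    (w := fun i => Tg A (ex a ν i)) (b := fun i => Bf B (ex a ν i))
    (β := fun i => Real.exp (c * 2 ^ (ex a ν i) * (1 + 1 / (((ex a ν i : ℕ):ℝ) + 4))))
    (n := num ν) (ρ := rho A B a ν)
    (fun l _ => ih (ex a ν l) (by have := ex_le a ν l; omega))
    (fun l _ => Real.exp_nonneg _)
    (ineq_rho' g1 g2 ha g3 h20 hB hA)
    (by unfold rho; omega)
  have i1 := ineq_R g1 g2 ha g3 h20 hB hA
  refine step.mono (ineq_N' g1 g2 ha g3 h20 hB hA) i1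
    (ineq_Q' g1 g2 ha g3 h20 hB hA) (ineq_b g1 g2 ha g3 h20 hB hA) ?_
  have n2 := two_le_num g1 g2 ha g3 h20 hB hA
  have hρ : ((rho A B a ν : ℕ) : ℝ) + 4 ≤ A * 2 ^ (a + ν + 6) * ((a + ν + 10 : ℕ) : ℝ) ^ 2 := by
    have h1 : rho A B a ν + 4 ≤ A * 2 ^ (a + ν + 6) * (a + ν + 10) ^ 2 := by
      unfold Rf at i1
      rw [e0] at i1
      omega
    exact_mod_cast h1
  have key := gain (A := A) (a := a) (ν := ν) (c := c) (ρ := ((rho A B a ν : ℕ) : ℝ) + 4)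
    h20 g3 hc hAc (by positivity) hρ
  have e1 : (((a + ν + 6 : ℕ) : ℝ) + 4) = ((a + ν + 10 : ℕ) : ℝ) := by push_cast; ring
  rw [e1]
  refine key.trans ?_
  have hρp : (0:ℝ) < ((rho A B a ν : ℕ) : ℝ) + 4 := by positivity
  have hmain : Real.exp (c * 2 ^ (a + ν + 6) * (1 + 1 / ((a:ℝ) + 4))) ≤
      ∏ i ∈ range (num ν),
        Real.exp (c * 2 ^ (ex a ν i) * (1 + 1 / (((ex a ν i : ℕ):ℝ) + 4))) := by
    rw [← Real.exp_sum]
    apply Real.exp_le_exp.mpr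
    have hsum : ((2:ℝ) ^ (a + ν + 6)) = ∑ i ∈ range (num ν), (2:ℝ) ^ ex a ν i := by
      have := sum_ex ha
      exact_mod_cast this.symm
    rw [hsum, mul_sum, sum_mul]
    apply sum_le_sum
    intro i _
    have hi : ((ex a ν i : ℕ) : ℝ) ≤ a := by exact_mod_cast ex_le a ν i
    have hi0 : (0:ℝ) ≤ ((ex a ν i : ℕ) : ℝ) := Nat.cast_nonneg _
    apply mul_le_mul_of_nonneg_left _ (by positivity)
    have : 1 / ((a:ℝ) + 4) ≤ 1 / (((ex a ν i : ℕ) : ℝ) + 4) :=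
      one_div_le_one_div_of_le (by linarith) (by linarith)
    linarith
  · have h9 := mul_le_mul_of_nonneg_left hmain (show (0:ℝ) ≤ 2500 / 10506 by norm_num)
    exact div_le_div_of_nonneg_right h9 hρp.le

/-- blocks of all sizes -/
theorem family2 : ∃ (A B : ℕ) (c : ℝ), 1 ≤ c ∧ ∀ a, Fam' A B c a := by
  obtain ⟨A₀, ρ, τ, Bh, hA₀, hBh, hlev⟩ := levels
  set K : ℕ := 1 + 161 * (Bh + 6) + τ + 5 * ρ with hK
  have hev : ∀ᶠ x : ℝ in atTop, 16 * (K:ℝ) * x ^ 5 ≤ Real.exp (1 / 3200 * x) := by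
    have h1 := (isLittleO_pow_exp_pos_mul_atTop 5 (b := 1 / 3200) (by norm_num)).bound
      (c := 1 / (16 * (K:ℝ) + 1)) (by positivity)
    filter_upwards [h1, eventually_ge_atTop 0] with x hx hx0
    rw [Real.norm_of_nonneg (by positivity), Real.norm_of_nonneg (Real.exp_nonneg _)] at hx
    have h2 : (0:ℝ) < 16 * (K:ℝ) + 1 := by positivity
    have h3 : (16 * (K:ℝ) + 1) * x ^ 5 ≤ Real.exp (1 / 3200 * x) := by
      calc (16 * (K:ℝ) + 1) * x ^ 5 ≤ (16 * (K:ℝ) + 1) * (1 / (16 * (K:ℝ) + 1) *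
            Real.exp (1 / 3200 * x)) := mul_le_mul_of_nonneg_left hx h2.le
        _ = _ := by field_simp
    have h4 : 0 ≤ x ^ 5 := by positivity
    linarith
  obtain ⟨N, hN⟩ := ((tendsto_natCast_atTop_atTop (R := ℝ)).eventually hev).exists_forall_of_atTop
  obtain ⟨s, hs⟩ : ∃ s, s = 2 * (N + 3 * 2 ^ 20) := ⟨_, rfl⟩
  obtain ⟨μ, hμ⟩ : ∃ μ, μ = Mu A₀ s := ⟨_, rfl⟩
  have hμs := Mu_ge (A := A₀) (by omega) s
  rw [← hμ] at hμs
  have hμ1 : 1 ≤ μ := by omega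
  have hμN : N ≤ μ := by omega
  have hμ3 : 3 * 2 ^ 20 ≤ μ := by omega
  have hs1 : s + 1 ≤ 2 * μ := by omega
  have hexp := hN μ hμN
  obtain ⟨B, hB⟩ : ∃ B, B = Bh * μ + 6 := ⟨_, rfl⟩
  obtain ⟨A, hA⟩ : ∃ A, A = 1 + 161 * B + τ * (s + 1) ^ 4 * μ + ρ * (s + 1) ^ 3 * μ +
    4 * ρ * (s + 1) ^ 4 * μ := ⟨_, rfl⟩
  have hμ0 : (3 * 2 ^ 20 : ℝ) ≤ μ := by exact_mod_cast hμ3
  refine ⟨A, B, μ / (3 * 2 ^ 20), ?_, ?_⟩
  · rw [le_div_iff₀ (by positivity)]; linarith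
  have hAle : A ≤ 16 * K * μ ^ 5 := by
    have h1 : (s + 1) ^ 4 ≤ 16 * μ ^ 4 := by
      calc (s + 1) ^ 4 ≤ (2 * μ) ^ 4 := Nat.pow_le_pow_left hs1 4
        _ = 16 * μ ^ 4 := by ring
    have h2 : (s + 1) ^ 3 ≤ (s + 1) ^ 4 := Nat.pow_le_pow_right (by omega) (by norm_num)
    have h3 : 1 ≤ μ ^ 5 := Nat.one_le_pow _ _ (by omega)
    have h4 : μ ≤ μ ^ 5 := Nat.le_self_pow (by norm_num) μ
    have a1 : 1 + 161 * B ≤ (1 + 161 * (Bh + 6)) * μ ^ 5 := by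
      rw [hB]
      calc 1 + 161 * (Bh * μ + 6) = 1 + 161 * (Bh * μ + 6 * 1) := by rw [mul_one]
        _ ≤ μ ^ 5 + 161 * (Bh * μ ^ 5 + 6 * μ ^ 5) :=
            Nat.add_le_add h3 (Nat.mul_le_mul_left _ (Nat.add_le_add
              (Nat.mul_le_mul_left _ h4) (Nat.mul_le_mul_left _ h3)))
        _ = _ := by ring
    have a2 : τ * (s + 1) ^ 4 * μ ≤ τ * 16 * μ ^ 5 := by
      calc τ * (s + 1) ^ 4 * μ ≤ τ * (16 * μ ^ 4) * μ :=
            Nat.mul_le_mul_right _ (Nat.mul_le_mul_left _ h1)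
        _ = _ := by ring
    have a3 : ρ * (s + 1) ^ 3 * μ ≤ ρ * 16 * μ ^ 5 := by
      calc ρ * (s + 1) ^ 3 * μ ≤ ρ * (16 * μ ^ 4) * μ :=
            Nat.mul_le_mul_right _ (Nat.mul_le_mul_left _ (h2.trans h1))
        _ = _ := by ring
    have a4 : 4 * ρ * (s + 1) ^ 4 * μ ≤ 4 * ρ * 16 * μ ^ 5 := by
      calc 4 * ρ * (s + 1) ^ 4 * μ ≤ 4 * ρ * (16 * μ ^ 4) * μ :=
            Nat.mul_le_mul_right _ (Nat.mul_le_mul_left _ h1)
        _ = _ := by ring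
    calc A ≤ (1 + 161 * (Bh + 6)) * μ ^ 5 + τ * 16 * μ ^ 5 + ρ * 16 * μ ^ 5 +
          4 * ρ * 16 * μ ^ 5 := by
          rw [hA]
          exact Nat.add_le_add (Nat.add_le_add (Nat.add_le_add a1 a2) a3) a4
      _ ≤ 16 * (1 + 161 * (Bh + 6)) * μ ^ 5 + τ * 16 * μ ^ 5 + ρ * 16 * μ ^ 5 +
          4 * ρ * 16 * μ ^ 5 := by
          have : (1 + 161 * (Bh + 6)) * μ ^ 5 ≤ 16 * (1 + 161 * (Bh + 6)) * μ ^ 5 := by
            apply Nat.mul_le_mul_right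
            exact Nat.le_mul_of_pos_left _ (by norm_num)
          exact Nat.add_le_add_right (Nat.add_le_add_right (Nat.add_le_add_right this _) _) _
      _ = 16 * K * μ ^ 5 := by rw [hK]; ring
  have hAexp : (A:ℝ) ≤ Real.exp (1000 * (μ / (3 * 2 ^ 20))) := by
    have h1 : (A:ℝ) ≤ 16 * (K:ℝ) * (μ:ℝ) ^ 5 := by exact_mod_cast hAle
    refine h1.trans (hexp.trans (Real.exp_le_exp.mpr ?_))
    have : (0:ℝ) ≤ μ := Nat.cast_nonneg _
    nlinarith
  intro a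
  induction a using Nat.strong_induction_on with
  | _ a ih =>
    rcases Nat.lt_or_ge a 20 with h | h
    · refine (hlev s).mono ?_ ?_ ?_ ?_ ?_
      · rw [← hμ]
        unfold Tg
        have h1 : 1 ≤ 8 * (2 ^ a * (a + 4) ^ 2 * stp a) :=
          Nat.mul_pos (by norm_num) (Nat.mul_pos (by positivity) (stp_pos a))
        calc τ * (s + 1) ^ 4 * μ ≤ A * 1 := by rw [hA]; omega
          _ ≤ A * (8 * (2 ^ a * (a + 4) ^ 2 * stp a)) := Nat.mul_le_mul_left _ h1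
          _ = _ := by ring
      · rw [← hμ]
        unfold Rf
        have h1 : 1 ≤ 2 ^ a * (a + 4) ^ 2 := Nat.mul_pos (by positivity) (by positivity)
        calc ρ * (s + 1) ^ 3 * μ ≤ A * 1 := by rw [hA]; omega
          _ ≤ A * (2 ^ a * (a + 4) ^ 2) := Nat.mul_le_mul_left _ h1
          _ = _ := by ring
      · rw [← hμ]
        unfold Tg
        have h1 : 1 ≤ 8 * (2 ^ a * (a + 4) ^ 2 * stp a) :=
          Nat.mul_pos (by norm_num) (Nat.mul_pos (by positivity) (stp_pos a))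
        calc 4 * ρ * (s + 1) ^ 4 * μ ≤ A * 1 := by rw [hA]; omega
          _ ≤ A * (8 * (2 ^ a * (a + 4) ^ 2 * stp a)) := Nat.mul_le_mul_left _ h1
          _ = _ := by ring
      · rw [← hμ]
        unfold Bf
        have h1 : B * 1 ≤ B * 2 ^ a := Nat.mul_le_mul_left _ Nat.one_le_two_pow
        omega
      · rw [← hμ]
        apply Real.exp_le_exp.mpr
        have h1 : (2:ℝ) ^ a ≤ 2 ^ 19 := pow_le_pow_right₀ (by norm_num) (by omega)
        have ha0 : (0:ℝ) ≤ a := Nat.cast_nonneg a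
        have h2 : 1 / ((a:ℝ) + 4) ≤ 1 := by
          rw [div_le_one (by linarith)]; linarith
        have hμp : (0:ℝ) ≤ μ := Nat.cast_nonneg _
        have hs0 : (0:ℝ) ≤ 1 / ((s:ℝ) + 1) := by positivity
        calc (μ:ℝ) / (3 * 2 ^ 20) * 2 ^ a * (1 + 1 / ((a:ℝ) + 4))
            ≤ (μ:ℝ) / (3 * 2 ^ 20) * 2 ^ 19 * (1 + 1 : ℝ) := by
              apply mul_le_mul _ (by linarith) (by positivity) (by positivity)
              exact mul_le_mul_of_nonneg_left h1 (by positivity)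
          _ = 1 / 3 * 1 * (μ:ℝ) := by ring
          _ ≤ 1 / 3 * (1 + 1 / ((s:ℝ) + 1)) * (μ:ℝ) := by
              apply mul_le_mul_of_nonneg_right _ hμp
              linarith
    · exact fam_step2 h (by omega) (by rw [hA]; omega)
        (by rw [le_div_iff₀ (by positivity)]; linarith) hAexp ih

end Pool.Agent.Helper15.KL
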